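import Pool.Agent.W657.BM.Final

/-!
# The reduced C*-algebra of `U(F)` does not determine the permutation group `F`

Let `F ≠ 1` be a permutation group on a finite set `Ω` with `m ≥ 2` elements. Let `F₁ = addPt F`
be the group `F` acting on `Ω` and one further point, which is fixed, and let `F₂ = wreath F` be the
wreath product of `F` with `ℤ/2` in its imprimitive action on `Ω × {0, 1}`. Then `F₁` and `F₂` have
degrees `m + 1` and `2 m`, they are not permutation isomorphic, the Burger-Mozes groups `U(F₁)` and
`U(F₂)` are not discrete, and the reduced group C*-algebras of `U(F₁)` and `U(F₂)` are isomorphic.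
For example, `F₁` is the group of order `2` generated by a transposition in `Sym(3)`, and `F₂` is
the transitive dihedral group of order `8` in `Sym(4)`.

Proof: the edges of the fixed colour form a perfect matching of the tree of degree `m + 1`, which is
invariant under `U(F₁)`. Contraction of this matching gives the tree of degree `2 m`, and the
group `U(F₂)`.
-/

set_option autoImplicit false

namespace Pool.Agent.Results.MP_9a581e_an.FixedPointWreath

open Pool.Agent.W657.BM

universe u

/-- For every finite permutation group `F ≠ 1` on a set `Ω` with at least two elements: the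
permutation groups `addPt F` (of degree `|Ω| + 1 ≥ 3`) and `wreath F` (of degree `2 |Ω| ≥ 3`) are
not permutation isomorphic, their Burger-Mozes groups `U(addPt F)` and `U(wreath F)` (with respect
to any legal colourings of regular trees, which exist) are not discrete, and the reduced group
C*-algebras of `U(addPt F)` and `U(wreath F)` are isomorphic. -/
theorem result (Ω : Type u) [Fintype Ω] (hΩ : 2 ≤ Fintype.card Ω)
    (F : Subgroup (Equiv.Perm Ω)) (hF : F ≠ ⊥) :
    3 ≤ Fintype.card (Option Ω) ∧ 3 ≤ Fintype.card (Ω × Bool) ∧
    ¬ PermIso (addPt F) (wreath F) ∧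
    (∃ V : Type u, Nonempty (ColTree V (Option Ω))) ∧
    (∃ V : Type u, Nonempty (ColTree V (Ω × Bool))) ∧
    ∀ (V W : Type u) (t₁ : ColTree V (Option Ω)) (t₂ : ColTree W (Ω × Bool)),
      ¬ DiscreteTopology (U t₁ (addPt F)) ∧ ¬ DiscreteTopology (U t₂ (wreath F)) ∧
      ReducedIso (U t₁ (addPt F)) (U t₂ (wreath F)) :=
  final Ω hΩ F hF

end Pool.Agent.Results.MP_9a581e_an.FixedPointWreath
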